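import Mathlib

/-!
Uniform probability on the subsets of a finite set: expectation, probability,
invariance under bijections, Harris' inequality, marginals, and the resampling involution.
-/

open Finset

namespace Pool.Agent.MP_6bd702

variable {α β : Type*} [Fintype α] [DecidableEq α] [Fintype β] [DecidableEq β]

/-- Expectation of `f` when every element of `α` belongs to the random set independently with
probability `1/2`. -/
noncomputable def Ex (f : Finset α → ℝ) : ℝ := (∑ ω : Finset α, f ω) / 2 ^ Fintype.card α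

/-- Probability of `A` under the same law. -/
noncomputable def Pr (A : Set (Finset α)) : ℝ := Ex (A.indicator fun _ => (1 : ℝ))

theorem two_pow_pos' : (0 : ℝ) < 2 ^ Fintype.card α := by positivity

theorem Ex_mono {f g : Finset α → ℝ} (h : ∀ ω, f ω ≤ g ω) : Ex f ≤ Ex g := by
  unfold Ex
  exact div_le_div_of_nonneg_right (Finset.sum_le_sum fun ω _ => h ω) two_pow_pos'.le

theorem Ex_nonneg {f : Finset α → ℝ} (h : ∀ ω, 0 ≤ f ω) : 0 ≤ Ex f := by
  unfold Ex
  exact div_nonneg (Finset.sum_nonneg fun ω _ => h ω) two_pow_pos'.le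

theorem Ex_add (f g : Finset α → ℝ) : Ex (fun ω => f ω + g ω) = Ex f + Ex g := by
  unfold Ex; rw [Finset.sum_add_distrib, add_div]

theorem Ex_sub (f g : Finset α → ℝ) : Ex (fun ω => f ω - g ω) = Ex f - Ex g := by
  unfold Ex; rw [Finset.sum_sub_distrib, sub_div]

theorem Ex_mul_left (c : ℝ) (f : Finset α → ℝ) : Ex (fun ω => c * f ω) = c * Ex f := by
  unfold Ex; rw [← Finset.mul_sum, mul_div_assoc]

theorem Ex_sum {ι : Type*} (s : Finset ι) (f : ι → Finset α → ℝ) :
    Ex (fun ω => ∑ i ∈ s, f i ω) = ∑ i ∈ s, Ex (f i) := by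
  unfold Ex; rw [Finset.sum_comm, Finset.sum_div]

theorem Ex_const (c : ℝ) : Ex (fun _ : Finset α => c) = c := by
  unfold Ex
  rw [Finset.sum_const, Finset.card_univ, Fintype.card_finset, nsmul_eq_mul]
  push_cast
  field_simp

theorem Ex_congr {f g : Finset α → ℝ} (h : ∀ ω, f ω = g ω) : Ex f = Ex g := by
  rw [show f = g from funext h]

theorem Ex_equiv (e : Finset α ≃ Finset α) (f : Finset α → ℝ) : Ex (fun ω => f (e ω)) = Ex f := by
  unfold Ex; rw [Equiv.sum_comp e f]

theorem abs_Ex_le (f : Finset α → ℝ) : |Ex f| ≤ Ex fun ω => |f ω| := by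
  unfold Ex
  rw [abs_div, abs_of_pos (two_pow_pos' (α := α))]
  exact div_le_div_of_nonneg_right (Finset.abs_sum_le_sum_abs _ _) two_pow_pos'.le

/-- Cauchy-Schwarz. -/
theorem Ex_mul_le_sqrt (f g : Finset α → ℝ) :
    Ex (fun ω => f ω * g ω) ≤ Real.sqrt (Ex fun ω => f ω ^ 2) * Real.sqrt (Ex fun ω => g ω ^ 2) := by
  unfold Ex
  have h := Finset.sum_mul_sq_le_sq_mul_sq (univ : Finset (Finset α)) f g
  rw [Real.sqrt_div' _ two_pow_pos'.le, Real.sqrt_div' _ two_pow_pos'.le, div_mul_div_comm,
    Real.mul_self_sqrt two_pow_pos'.le]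
  refine div_le_div_of_nonneg_right ?_ two_pow_pos'.le
  rw [← Real.sqrt_mul (Finset.sum_nonneg fun i _ => sq_nonneg _)]
  exact (le_abs_self _).trans (Real.abs_le_sqrt h)

theorem Pr_nonneg (A : Set (Finset α)) : 0 ≤ Pr A :=
  Ex_nonneg fun ω => Set.indicator_nonneg (fun _ _ => zero_le_one) ω

theorem Pr_mono {A B : Set (Finset α)} (h : A ⊆ B) : Pr A ≤ Pr B :=
  Ex_mono fun ω => Set.indicator_le_indicator_of_subset h (fun _ => zero_le_one) ω

theorem Pr_univ : Pr (Set.univ : Set (Finset α)) = 1 := by
  unfold Pr; rw [Set.indicator_univ]; exact Ex_const 1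

theorem Pr_le_one (A : Set (Finset α)) : Pr A ≤ 1 := by
  rw [← Pr_univ (α := α)]; exact Pr_mono (Set.subset_univ _)

theorem Pr_union_le (A B : Set (Finset α)) : Pr (A ∪ B) ≤ Pr A + Pr B := by
  unfold Pr
  rw [← Ex_add]
  refine Ex_mono fun ω => ?_
  by_cases h1 : ω ∈ A <;> by_cases h2 : ω ∈ B <;> simp [Set.indicator, h1, h2]

theorem Pr_compl (A : Set (Finset α)) : Pr Aᶜ = 1 - Pr A := by
  rw [← Pr_univ (α := α)]
  unfold Pr
  rw [← Ex_sub]
  refine Ex_congr fun ω => ?_
  by_cases h1 : ω ∈ A <;> simp [Set.indicator, h1]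

theorem Pr_equiv (e : Finset α ≃ Finset α) (A : Set (Finset α)) : Pr (e ⁻¹' A) = Pr A := by
  unfold Pr
  exact Ex_equiv e (A.indicator fun _ => (1 : ℝ))

/-- A measure preserving comparison. -/
theorem Pr_le_of_equiv (e : Finset α ≃ Finset α) {A B : Set (Finset α)}
    (h : ∀ ω ∈ A, e ω ∈ B) : Pr A ≤ Pr B := by
  rw [← Pr_equiv e B]; exact Pr_mono h

open Classical in
theorem Pr_eq_card (A : Set (Finset α)) :
    Pr A = ((univ.filter (· ∈ A)).card : ℝ) / 2 ^ Fintype.card α := by
  unfold Pr Ex
  congr 1
  rw [Finset.card_filter]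
  push_cast
  refine Finset.sum_congr rfl fun ω _ => ?_
  simp [Set.indicator]

/-- Harris' inequality for increasing events. -/
theorem harris {A B : Set (Finset α)} (hA : IsUpperSet A) (hB : IsUpperSet B) :
    Pr A * Pr B ≤ Pr (A ∩ B) := by
  classical
  have h1 : IsUpperSet ((univ.filter (· ∈ A) : Finset (Finset α)) : Set (Finset α)) := by
    intro s t hst hs
    simp only [Finset.coe_filter, Finset.mem_univ, true_and, Set.mem_setOf_eq] at hs ⊢
    exact hA hst hs
  have h2 : IsUpperSet ((univ.filter (· ∈ B) : Finset (Finset α)) : Set (Finset α)) := by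
    intro s t hst hs
    simp only [Finset.coe_filter, Finset.mem_univ, true_and, Set.mem_setOf_eq] at hs ⊢
    exact hB hst hs
  have h := IsUpperSet.le_card_inter_finset h1 h2
  have h3 : (univ.filter (· ∈ A) : Finset (Finset α)) ∩ univ.filter (· ∈ B)
      = @Finset.filter _ (· ∈ A ∩ B) (fun a => Classical.propDecidable _) univ := by
    ext s; simp
  rw [h3] at h
  have h4 : ((univ.filter (· ∈ A) : Finset (Finset α)).card : ℝ)
      * ((univ.filter (· ∈ B) : Finset (Finset α)).card : ℝ)
      ≤ 2 ^ Fintype.card α *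
        ((@Finset.filter _ (· ∈ A ∩ B) (fun a => Classical.propDecidable _) univ).card : ℝ) := by
    exact_mod_cast h
  rw [Pr_eq_card, Pr_eq_card, Pr_eq_card, div_mul_div_comm, div_le_div_iff₀ (by positivity)
    (by positivity)]
  have h5 := mul_le_mul_of_nonneg_right h4 (two_pow_pos' (α := α)).le
  linarith

theorem harris3 {A B C : Set (Finset α)} (hA : IsUpperSet A) (hB : IsUpperSet B)
    (hC : IsUpperSet C) : Pr A * Pr B * Pr C ≤ Pr (A ∩ B ∩ C) :=
  (mul_le_mul_of_nonneg_right (harris hA hB) (Pr_nonneg _)).trans (harris (hA.inter hB) hC)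

/-- complement bijection -/
def complEquiv : Finset α ≃ Finset α where
  toFun s := sᶜ
  invFun s := sᶜ
  left_inv s := compl_compl s
  right_inv s := compl_compl s

theorem harris_lower {A B : Set (Finset α)} (hA : IsLowerSet A) (hB : IsLowerSet B) :
    Pr A * Pr B ≤ Pr (A ∩ B) := by
  rw [← Pr_equiv complEquiv A, ← Pr_equiv complEquiv B, ← Pr_equiv complEquiv (A ∩ B)]
  have h1 : IsUpperSet ((complEquiv (α := α)) ⁻¹' A) := by
    intro s t hst hs
    exact hA (compl_le_compl hst) hs
  have h2 : IsUpperSet ((complEquiv (α := α)) ⁻¹' B) := by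
    intro s t hst hs
    exact hB (compl_le_compl hst) hs
  exact harris h1 h2

/-- Harris for a finite intersection of decreasing events, each of probability at least `c`. -/
theorem harris_lower_iInter {ι : Type*} (s : Finset ι) (A : ι → Set (Finset α)) {c : ℝ}
    (hc : 0 ≤ c) (hA : ∀ i ∈ s, IsLowerSet (A i)) (hP : ∀ i ∈ s, c ≤ Pr (A i)) :
    c ^ s.card ≤ Pr (⋂ i ∈ s, A i) ∧ IsLowerSet (⋂ i ∈ s, A i) := by
  classical
  induction s using Finset.induction_on with
  | empty => simp [Pr_univ, isLowerSet_univ]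
  | insert a s ha ih =>
    obtain ⟨h1, h2⟩ := ih (fun i hi => hA i (Finset.mem_insert_of_mem hi))
      (fun i hi => hP i (Finset.mem_insert_of_mem hi))
    have hAa := hA a (Finset.mem_insert_self a s)
    rw [Finset.set_biInter_insert, Finset.card_insert_of_notMem ha]
    refine ⟨?_, hAa.inter h2⟩
    calc c ^ (s.card + 1) = c * c ^ s.card := by ring
      _ ≤ Pr (A a) * Pr (⋂ i ∈ s, A i) :=
        mul_le_mul (hP a (Finset.mem_insert_self a s)) h1 (by positivity) (Pr_nonneg _)
      _ ≤ _ := harris_lower hAa h2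

/-! ### Resampling off a stopping set -/

/-- `ω` on `S ω`, `ξ` elsewhere. -/
def mix (S : Finset α → Finset α) (ω ξ : Finset α) : Finset α := (ω ∩ S ω) ∪ (ξ \ S ω)

theorem mem_mix_of_mem {S : Finset α → Finset α} {ω ξ : Finset α} {e : α} (h : e ∈ S ω) :
    e ∈ mix S ω ξ ↔ e ∈ ω := by
  simp [mix, h]

theorem mem_mix_of_notMem {S : Finset α → Finset α} {ω ξ : Finset α} {e : α} (h : e ∉ S ω) :
    e ∈ mix S ω ξ ↔ e ∈ ξ := by
  simp [mix, h]

/-- `S` is a stopping set: it is determined by the configuration inside it. -/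
def IsStop (S : Finset α → Finset α) : Prop :=
  ∀ ω ω' : Finset α, (∀ e ∈ S ω, e ∈ ω ↔ e ∈ ω') → S ω' = S ω

/-- The swapping involution. -/
def swapEquiv (S : Finset α → Finset α) (hS : IsStop S) :
    (Finset α × Finset α) ≃ (Finset α × Finset α) where
  toFun p := (mix S p.1 p.2, (p.2 ∩ S p.1) ∪ (p.1 \ S p.1))
  invFun p := (mix S p.1 p.2, (p.2 ∩ S p.1) ∪ (p.1 \ S p.1))
  left_inv := by
    rintro ⟨ω, ξ⟩
    have h : S (mix S ω ξ) = S ω := hS ω _ fun e he => (mem_mix_of_mem he).symm
    simp only [Prod.mk.injEq]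
    constructor
    · ext e
      by_cases he : e ∈ S ω
      · rw [mem_mix_of_mem (by rwa [h]), mem_mix_of_mem he]
      · rw [mem_mix_of_notMem (by rwa [h])]
        simp [he]
    · ext e
      by_cases he : e ∈ S ω
      · simp [h, he]
      · simp only [h, mem_union, mem_inter, he, and_false, mem_sdiff, not_false_eq_true, and_true,
          false_or]
        exact mem_mix_of_notMem he
  right_inv := by
    rintro ⟨ω, ξ⟩
    have h : S (mix S ω ξ) = S ω := hS ω _ fun e he => (mem_mix_of_mem he).symm
    simp only [Prod.mk.injEq]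
    constructor
    · ext e
      by_cases he : e ∈ S ω
      · rw [mem_mix_of_mem (by rwa [h]), mem_mix_of_mem he]
      · rw [mem_mix_of_notMem (by rwa [h])]
        simp [he]
    · ext e
      by_cases he : e ∈ S ω
      · simp [h, he]
      · simp only [h, mem_union, mem_inter, he, and_false, mem_sdiff, not_false_eq_true, and_true,
          false_or]
        exact mem_mix_of_notMem he

/-- The law of the mixed configuration is again uniform. -/
theorem Ex_mix (S : Finset α → Finset α) (hS : IsStop S) (f : Finset α → ℝ) :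
    Ex (fun ω => Ex (fun ξ => f (mix S ω ξ))) = Ex f := by
  have h1 : (∑ p : Finset α × Finset α, f (mix S p.1 p.2)) = ∑ p : Finset α × Finset α, f p.1 :=
    Equiv.sum_comp (swapEquiv S hS) (fun p => f p.1)
  rw [Fintype.sum_prod_type, Fintype.sum_prod_type] at h1
  have h2 : ∀ ω : Finset α, (∑ _ξ : Finset α, f ω) = 2 ^ Fintype.card α * f ω := by
    intro ω
    rw [Finset.sum_const, Finset.card_univ, Fintype.card_finset, nsmul_eq_mul]
    push_cast; ring
  unfold Ex
  rw [← Finset.sum_div, h1, Finset.sum_congr rfl fun ω _ => h2 ω, ← Finset.mul_sum]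
  field_simp

/-- If `ω ∈ A` and, given `ω ∈ A`, a fresh configuration is in `B ω` with probability at least
`c`, and then the mixture is in `X`, then `Pr X ≥ c * Pr A`. -/
theorem Pr_mix_ge (S : Finset α → Finset α) (hS : IsStop S) (A : Set (Finset α))
    (B : Finset α → Set (Finset α)) (X : Set (Finset α)) {c : ℝ}
    (hB : ∀ ω ∈ A, c ≤ Pr (B ω)) (hX : ∀ ω ∈ A, ∀ ξ ∈ B ω, mix S ω ξ ∈ X) :
    c * Pr A ≤ Pr X := by
  unfold Pr
  rw [← Ex_mix S hS (X.indicator fun _ => (1 : ℝ)), ← Ex_mul_left]
  refine Ex_mono fun ω => ?_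
  by_cases hω : ω ∈ A
  · rw [Set.indicator_of_mem hω, mul_one]
    refine (hB ω hω).trans ?_
    refine Ex_mono fun ξ => ?_
    by_cases hξ : ξ ∈ B ω
    · rw [Set.indicator_of_mem hξ, Set.indicator_of_mem (hX ω hω ξ hξ)]
    · rw [Set.indicator_of_notMem hξ]
      exact Set.indicator_nonneg (fun _ _ => zero_le_one) _
  · rw [Set.indicator_of_notMem hω, mul_zero]
    exact Ex_nonneg fun ξ => Set.indicator_nonneg (fun _ _ => zero_le_one) _

/-! ### Marginals -/

/-- Restriction of a configuration along an injection. -/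
noncomputable def restr (ι : β → α) (ω : Finset α) : Finset β := by
  classical exact univ.filter fun b => ι b ∈ ω

theorem mem_restr {ι : β → α} {ω : Finset α} {b : β} : b ∈ restr ι ω ↔ ι b ∈ ω := by
  simp [restr]

theorem Ex_restr {ι : β → α} (hι : Function.Injective ι) (f : Finset β → ℝ) :
    Ex (fun ω : Finset α => f (restr ι ω)) = Ex f := by
  classical
  -- split a configuration into its part in the image and the rest
  let R : Finset α := univ.image ι
  let e : Finset α ≃ (Finset β × Finset {a : α // a ∉ R}) :=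
    { toFun := fun ω => (restr ι ω, univ.filter fun a => (a : α) ∈ ω)
      invFun := fun p => (p.1.image ι) ∪ (p.2.image Subtype.val)
      left_inv := by
        intro ω
        ext a
        simp only [mem_union, mem_image, mem_restr, mem_filter, mem_univ, true_and, Subtype.exists,
          exists_and_right, exists_eq_right]
        constructor
        · rintro (⟨b, hb, rfl⟩ | ⟨h, h2⟩)
          · exact hb
          · exact h2
        · intro ha
          by_cases haR : a ∈ R
          · obtain ⟨b, -, rfl⟩ := Finset.mem_image.1 haR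
            exact Or.inl ⟨b, ha, rfl⟩
          · exact Or.inr ⟨haR, ha⟩
      right_inv := by
        rintro ⟨s, t⟩
        simp only [Prod.mk.injEq]
        constructor
        · ext b
          simp only [mem_restr, mem_union, mem_image, Subtype.exists, exists_and_right,
            exists_eq_right]
          constructor
          · rintro (⟨c, hc, hcb⟩ | ⟨h, -⟩)
            · rwa [← hι hcb]
            · exact absurd (Finset.mem_image_of_mem ι (Finset.mem_univ b)) h
          · intro hb
            exact Or.inl ⟨b, hb, rfl⟩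
        · ext ⟨a, ha⟩
          simp only [mem_filter, mem_univ, true_and, mem_union, mem_image, Subtype.exists,
            exists_and_right, exists_eq_right]
          constructor
          · rintro (⟨c, hc, rfl⟩ | ⟨_, h⟩)
            · exact absurd (Finset.mem_image_of_mem ι (Finset.mem_univ c)) ha
            · exact h
          · intro h
            exact Or.inr ⟨ha, h⟩ }
  have h1 : (∑ ω : Finset α, f (restr ι ω))
      = ∑ p : Finset β × Finset {a : α // a ∉ R}, f p.1 := Equiv.sum_comp e (fun p => f p.1)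
  have hcard : Fintype.card α = Fintype.card β + Fintype.card {a : α // a ∉ R} := by
    have h2 : Fintype.card {a : α // a ∉ R} = Fintype.card α - R.card := by
      rw [Fintype.card_subtype_compl]; simp
    have h3 : R.card = Fintype.card β := by
      rw [Finset.card_image_of_injective _ hι, Finset.card_univ]
    have h4 : R.card ≤ Fintype.card α := Finset.card_le_univ R
    omega
  unfold Ex
  rw [h1, Fintype.sum_prod_type]
  have h2 : ∀ s : Finset β, (∑ _t : Finset {a : α // a ∉ R}, f s)
      = 2 ^ Fintype.card {a : α // a ∉ R} * f s := by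
    intro s
    rw [Finset.sum_const, Finset.card_univ, Fintype.card_finset, nsmul_eq_mul]
    push_cast; ring
  rw [Finset.sum_congr rfl fun s _ => h2 s, ← Finset.mul_sum, hcard, pow_add]
  field_simp

theorem Pr_restr {ι : β → α} (hι : Function.Injective ι) (A : Set (Finset β)) :
    Pr (restr ι ⁻¹' A) = Pr A := by
  unfold Pr
  rw [← Ex_restr hι]
  rfl

end Pool.Agent.MP_6bd702
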