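import Pool.Agent.Lib.MP_6bd702_pr.Basic

/-!
Decision trees, the OSSS inequality (O'Donnell, Saks, Schramm, Servedio) and the
O'Donnell-Servedio inequality, for uniform subsets of a finite set.
-/

open Finset

namespace Pool.Agent.MP_6bd702

/-- Decision trees: at a node the membership of an element is queried; the first subtree is used
when the answer is no, the second when it is yes. -/
inductive DT (α : Type) where
  | leaf : DT α
  | node : α → DT α → DT α → DT α

variable {α : Type} [Fintype α] [DecidableEq α]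

namespace DT

/-- The set of queried elements. -/
def q : DT α → Finset α → Finset α
  | leaf, _ => ∅
  | node e t0 t1, ω => insert e (if e ∈ ω then q t1 ω else q t0 ω)

/-- No element of `A` is queried and nothing is queried twice. -/
def WF : DT α → Finset α → Prop
  | leaf, _ => True
  | node e t0 t1, A => e ∉ A ∧ WF t0 (insert e A) ∧ WF t1 (insert e A)

theorem notMem_q {t : DT α} : ∀ {A : Finset α}, WF t A → ∀ ω, ∀ a ∈ A, a ∉ q t ω := by
  induction t with
  | leaf => intro A _ ω a _; simp [q]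
  | node e t0 t1 ih0 ih1 =>
    intro A h ω a ha
    obtain ⟨he, h0, h1⟩ := h
    have hae : a ≠ e := fun h => he (h ▸ ha)
    simp only [q, mem_insert, not_or]
    refine ⟨hae, ?_⟩
    split_ifs
    · exact ih1 h1 ω a (mem_insert_of_mem ha)
    · exact ih0 h0 ω a (mem_insert_of_mem ha)

theorem q_congr (t : DT α) : ∀ {ω ω' : Finset α}, (∀ a ∈ q t ω, a ∈ ω ↔ a ∈ ω') →
    q t ω' = q t ω := by
  induction t with
  | leaf => intro ω ω' _; rfl
  | node e t0 t1 ih0 ih1 =>
    intro ω ω' h
    have he : e ∈ ω ↔ e ∈ ω' := h e (by simp [q])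
    simp only [q] at h ⊢
    by_cases h' : e ∈ ω
    · have h'' := he.1 h'
      simp only [h', h'', if_true] at h ⊢
      rw [ih1 fun a ha => h a (mem_insert_of_mem ha)]
    · have h'' : e ∉ ω' := fun h3 => h' (he.2 h3)
      simp only [h', h'', if_false] at h ⊢
      rw [ih0 fun a ha => h a (mem_insert_of_mem ha)]

theorem q_insert {t : DT α} {A : Finset α} (h : WF t A) {e : α} (he : e ∈ A) (ω : Finset α) :
    q t (insert e ω) = q t ω := by
  refine q_congr t fun a ha => ?_
  have hae : a ≠ e := fun h' => notMem_q h ω e he (h' ▸ ha)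
  simp [hae]

theorem q_erase {t : DT α} {A : Finset α} (h : WF t A) {e : α} (he : e ∈ A) (ω : Finset α) :
    q t (ω.erase e) = q t ω := by
  refine q_congr t fun a ha => ?_
  have hae : a ≠ e := fun h' => notMem_q h ω e he (h' ▸ ha)
  simp [hae]

end DT

/-! ### One coordinate at a time -/

/-- change the state of `e` -/
def flipE (e : α) : Finset α ≃ Finset α where
  toFun ω := symmDiff ω {e}
  invFun ω := symmDiff ω {e}
  left_inv ω := by show symmDiff (symmDiff ω {e}) {e} = ω; simp
  right_inv ω := by show symmDiff (symmDiff ω {e}) {e} = ω; simp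

theorem mem_flipE {e a : α} {ω : Finset α} : a ∈ flipE e ω ↔ (a ∈ ω ↔ a ≠ e) := by
  simp only [flipE, Equiv.coe_fn_mk, mem_symmDiff, mem_singleton]
  tauto

theorem flipE_of_mem {e : α} {ω : Finset α} (h : e ∈ ω) : flipE e ω = ω.erase e := by
  ext a
  rw [mem_flipE, mem_erase]
  by_cases ha : a = e
  · subst ha; simp [h]
  · simp [ha]

theorem flipE_of_notMem {e : α} {ω : Finset α} (h : e ∉ ω) : flipE e ω = insert e ω := by
  ext a
  rw [mem_flipE, mem_insert]
  by_cases ha : a = e
  · subst ha; simp [h]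
  · simp [ha]

theorem Ex_split (e : α) (f : Finset α → ℝ) :
    Ex f = (Ex (fun ω => f (insert e ω)) + Ex (fun ω => f (ω.erase e))) / 2 := by
  have h1 : Ex (fun ω => f ω + f (flipE e ω)) = 2 * Ex f := by
    rw [Ex_add, Ex_equiv (flipE e) f]; ring
  have h2 : Ex (fun ω => f (insert e ω) + f (ω.erase e)) = Ex (fun ω => f ω + f (flipE e ω)) := by
    refine Ex_congr fun ω => ?_
    by_cases h : e ∈ ω
    · rw [flipE_of_mem h, insert_eq_of_mem h]
    · rw [flipE_of_notMem h, erase_eq_of_notMem h, add_comm]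
  rw [← Ex_add, h2, h1]; ring

/-- The influence of `e` on `g`. -/
noncomputable def Inf (g : Finset α → ℝ) (e : α) : ℝ :=
  Ex fun ω => |g (insert e ω) - g (ω.erase e)|

theorem Inf_nonneg (g : Finset α → ℝ) (e : α) : 0 ≤ Inf g e := Ex_nonneg fun _ => abs_nonneg _

/-- the average over the state of `e` -/
noncomputable def avg (e : α) (g : Finset α → ℝ) (ω : Finset α) : ℝ :=
  (g (insert e ω) + g (ω.erase e)) / 2

theorem Ex_avg (e : α) (g : Finset α → ℝ) : Ex (avg e g) = Ex g := by
  rw [Ex_split e g, ← Ex_add]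
  have : (avg e g) = fun ω => (1 / 2 : ℝ) * (g (insert e ω) + g (ω.erase e)) := by
    funext ω; unfold avg; ring
  rw [this, Ex_mul_left]; ring

theorem insert_insert_erase {e e' : α} (ω : Finset α) :
    insert e (insert e ω) = insert e ω := insert_eq_of_mem (mem_insert_self e ω)

theorem Inf_avg_le (e e' : α) (g : Finset α → ℝ) : Inf (avg e g) e' ≤ Inf g e' := by
  by_cases h : e' = e
  · subst h
    have : Inf (avg e' g) e' = 0 := by
      unfold Inf
      rw [Ex_congr (g := fun _ => (0 : ℝ)) fun ω => ?_, Ex_const]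
      have h1 : insert e' (insert e' ω) = insert e' ω := insert_eq_of_mem (mem_insert_self e' ω)
      have h2 : (insert e' ω).erase e' = ω.erase e' := by
        ext a; simp only [mem_erase, mem_insert]; tauto
      have h3 : insert e' (ω.erase e') = insert e' ω := by
        ext a; simp only [mem_erase, mem_insert]; tauto
      have h4 : (ω.erase e').erase e' = ω.erase e' := by ext a; simp
      simp only [avg, h1, h2, h3, h4, sub_self, abs_zero]
    rw [this]; exact Inf_nonneg g e'
  · have h' : e ≠ e' := fun h2 => h h2.symm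
    have key : Inf g e' = (Ex (fun ω => |g (insert e' (insert e ω)) - g ((insert e ω).erase e')|)
        + Ex (fun ω => |g (insert e' (ω.erase e)) - g ((ω.erase e).erase e')|)) / 2 := by
      unfold Inf
      rw [Ex_split e (fun ω => |g (insert e' ω) - g (ω.erase e')|)]
    rw [key, ← Ex_add]
    have h5 : ∀ x : ℝ, x / 2 = (1 / 2 : ℝ) * x := fun x => by ring
    rw [h5, ← Ex_mul_left]
    unfold Inf
    refine Ex_mono fun ω => ?_
    have h1 : insert e (insert e' ω) = insert e' (insert e ω) := insert_comm _ _ _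
    have h2 : (insert e' ω).erase e = insert e' (ω.erase e) := by
      ext a; simp only [mem_erase, mem_insert]
      constructor
      · rintro ⟨h1, h2 | h2⟩
        · exact Or.inl h2
        · exact Or.inr ⟨h1, h2⟩
      · rintro (h1 | ⟨h1, h2⟩)
        · exact ⟨fun h3 => h (h1 ▸ h3), Or.inl h1⟩
        · exact ⟨h1, Or.inr h2⟩
    have h3 : insert e (ω.erase e') = (insert e ω).erase e' := by
      ext a; simp only [mem_erase, mem_insert]
      constructor
      · rintro (h1 | ⟨h1, h2⟩)
        · exact ⟨fun h3 => h' (h1 ▸ h3), Or.inl h1⟩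
        · exact ⟨h1, Or.inr h2⟩
      · rintro ⟨h1, h2 | h2⟩
        · exact Or.inl h2
        · exact Or.inr ⟨h1, h2⟩
    have h4 : (ω.erase e').erase e = (ω.erase e).erase e' := by
      ext a; simp only [mem_erase]; tauto
    simp only [avg, h1, h2, h3, h4]
    have h6 : (g (insert e' (insert e ω)) + g (insert e' (ω.erase e))) / 2
        - (g ((insert e ω).erase e') + g ((ω.erase e).erase e')) / 2
        = (1 / 2) * ((g (insert e' (insert e ω)) - g ((insert e ω).erase e'))
          + (g (insert e' (ω.erase e)) - g ((ω.erase e).erase e'))) := by ring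
    rw [h6, abs_mul, abs_of_pos (by norm_num : (0 : ℝ) < 1 / 2)]
    exact mul_le_mul_of_nonneg_left (abs_add_le _ _) (by norm_num)

/-! ### OSSS -/

/-- `T` determines `f`. -/
def DT.Computes (T : DT α) (f : Finset α → ℝ) : Prop :=
  ∀ ω ω' : Finset α, (∀ a ∈ T.q ω, a ∈ ω ↔ a ∈ ω') → f ω = f ω'

theorem Pr_q_node (e : α) (t0 t1 : DT α) {A : Finset α} (h : DT.WF (.node e t0 t1) A) (a : α) :
    Pr {ω | a ∈ (DT.node e t0 t1).q ω} =
      (if a = e then 1 else 0) + (Pr {ω | a ∈ t1.q ω} + Pr {ω | a ∈ t0.q ω}) / 2 := by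
  obtain ⟨-, h0, h1⟩ := h
  have he : e ∈ insert e A := mem_insert_self e A
  unfold Pr
  rw [Ex_split e]
  have key : ∀ (t : DT α), t.WF (insert e A) → ∀ (F : Finset α → Finset α),
      (∀ ω, (DT.node e t0 t1).q (F ω) = insert e (t.q ω)) →
      Ex (fun ω => Set.indicator {ω | a ∈ (DT.node e t0 t1).q ω} (fun _ => (1 : ℝ)) (F ω))
      = (if a = e then 1 else 0) + Ex (Set.indicator {ω | a ∈ t.q ω} fun _ => (1 : ℝ)) := by
    intro t ht F hF
    by_cases hae : a = e
    · subst hae
      rw [if_pos rfl]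
      have h2 : Ex (Set.indicator {ω | a ∈ t.q ω} fun _ => (1 : ℝ)) = 0 := by
        rw [Ex_congr (g := fun _ => (0 : ℝ)) fun ω => ?_, Ex_const]
        exact Set.indicator_of_notMem (by simpa using DT.notMem_q ht ω a he) _
      rw [h2, add_zero, Ex_congr (g := fun _ => (1 : ℝ)) fun ω => ?_, Ex_const]
      exact Set.indicator_of_mem (by simp [hF]) _
    · rw [if_neg hae, zero_add]
      refine Ex_congr fun ω => ?_
      by_cases h3 : a ∈ t.q ω
      · rw [Set.indicator_of_mem (by simp [hF, h3]), Set.indicator_of_mem (by simpa using h3)]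
      · rw [Set.indicator_of_notMem (by simp [hF, h3, hae]),
          Set.indicator_of_notMem (by simpa using h3)]
  rw [key t1 h1 (fun ω => insert e ω) fun ω => ?_, key t0 h0 (fun ω => ω.erase e) fun ω => ?_]
  · ring
  · simp only [DT.q, notMem_erase, if_false]
    rw [DT.q_erase h0 he]
  · simp only [DT.q, mem_insert_self, if_true]
    rw [DT.q_insert h1 he]

theorem osss (T : DT α) : ∀ (A : Finset α), T.WF A → ∀ (f g : Finset α → ℝ), (∀ ω, |f ω| ≤ 1) →
    T.Computes f →
    |Ex (fun ω => f ω * g ω) - Ex f * Ex g| ≤ (∑ e, Pr {ω | e ∈ T.q ω} * Inf g e) / 2 := by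
  induction T with
  | leaf =>
    intro A _ f g _ hT
    have h : ∀ ω, f ω = f ∅ := fun ω => hT ω ∅ (by simp [DT.q])
    have h1 : Ex (fun ω => f ω * g ω) = f ∅ * Ex g := by
      rw [← Ex_mul_left]; exact Ex_congr fun ω => by rw [h ω]
    have h2 : Ex f = f ∅ := by
      rw [Ex_congr (g := fun _ => f ∅) h, Ex_const]
    rw [h1, h2, sub_self, abs_zero]
    have : 0 ≤ ∑ e, Pr {ω | e ∈ (DT.leaf : DT α).q ω} * Inf g e :=
      Finset.sum_nonneg fun e _ => mul_nonneg (Pr_nonneg _) (Inf_nonneg _ _)
    linarith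
  | node e t0 t1 ih0 ih1 =>
    intro A hWF f g hf hT
    have hWF' := hWF
    obtain ⟨heA, h0, h1⟩ := hWF'
    have he : e ∈ insert e A := mem_insert_self e A
    set f1 : Finset α → ℝ := fun ω => f (insert e ω) with hf1
    set f0 : Finset α → ℝ := fun ω => f (ω.erase e) with hf0
    have hc1 : t1.Computes f1 := by
      intro ω ω' h
      refine hT _ _ fun a ha => ?_
      simp only [DT.q, mem_insert_self, if_true] at ha
      rw [DT.q_insert h1 he] at ha
      rcases mem_insert.1 ha with rfl | ha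
      · simp
      · simp [h a ha]
    have hc0 : t0.Computes f0 := by
      intro ω ω' h
      refine hT _ _ fun a ha => ?_
      simp only [DT.q, notMem_erase, if_false] at ha
      rw [DT.q_erase h0 he] at ha
      rcases mem_insert.1 ha with rfl | ha
      · simp
      · simp [h a ha]
    have i1 := ih1 _ h1 f1 (avg e g) (fun ω => hf _) hc1
    have i0 := ih0 _ h0 f0 (avg e g) (fun ω => hf _) hc0
    rw [Ex_avg] at i1 i0
    -- decomposition
    have d1 : Ex (fun ω => f ω * g ω) = (Ex (fun ω => f1 ω * avg e g ω)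
        + Ex (fun ω => f1 ω * (g (insert e ω) - avg e g ω))
        + Ex (fun ω => f0 ω * avg e g ω)
        + Ex (fun ω => f0 ω * (g (ω.erase e) - avg e g ω))) / 2 := by
      rw [Ex_split e, ← Ex_add, ← Ex_add, ← Ex_add, ← Ex_add]
      congr 1
      exact Ex_congr fun ω => by simp only [hf1, hf0]; ring
    have d2 : Ex f = (Ex f1 + Ex f0) / 2 := Ex_split e f
    have b1 : |Ex (fun ω => f1 ω * (g (insert e ω) - avg e g ω))| ≤ Inf g e / 2 := by
      refine (abs_Ex_le _).trans ?_
      have : Inf g e / 2 = Ex fun ω => (1 / 2 : ℝ) * |g (insert e ω) - g (ω.erase e)| := by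
        rw [Ex_mul_left]; unfold Inf; ring
      rw [this]
      refine Ex_mono fun ω => ?_
      rw [abs_mul]
      have h3 : g (insert e ω) - avg e g ω = (1 / 2) * (g (insert e ω) - g (ω.erase e)) := by
        unfold avg; ring
      rw [h3, abs_mul, abs_of_pos (by norm_num : (0 : ℝ) < 1 / 2)]
      have h4 : |f1 ω| ≤ 1 := hf _
      have h5 : 0 ≤ (1 / 2 : ℝ) * |g (insert e ω) - g (ω.erase e)| := by positivity
      nlinarith
    have b0 : |Ex (fun ω => f0 ω * (g (ω.erase e) - avg e g ω))| ≤ Inf g e / 2 := by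
      refine (abs_Ex_le _).trans ?_
      have : Inf g e / 2 = Ex fun ω => (1 / 2 : ℝ) * |g (insert e ω) - g (ω.erase e)| := by
        rw [Ex_mul_left]; unfold Inf; ring
      rw [this]
      refine Ex_mono fun ω => ?_
      rw [abs_mul]
      have h3 : g (ω.erase e) - avg e g ω = -((1 / 2) * (g (insert e ω) - g (ω.erase e))) := by
        unfold avg; ring
      rw [h3, abs_neg, abs_mul, abs_of_pos (by norm_num : (0 : ℝ) < 1 / 2)]
      have h4 : |f0 ω| ≤ 1 := hf _
      have h5 : 0 ≤ (1 / 2 : ℝ) * |g (insert e ω) - g (ω.erase e)| := by positivity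
      nlinarith
    have s1 : ∀ t : DT α, (∑ a, Pr {ω | a ∈ t.q ω} * Inf (avg e g) a)
        ≤ ∑ a, Pr {ω | a ∈ t.q ω} * Inf g a := fun t =>
      Finset.sum_le_sum fun a _ => mul_le_mul_of_nonneg_left (Inf_avg_le e a g) (Pr_nonneg _)
    have s2 : (∑ a, Pr {ω | a ∈ (DT.node e t0 t1).q ω} * Inf g a) = Inf g e
        + ((∑ a, Pr {ω | a ∈ t1.q ω} * Inf g a) + (∑ a, Pr {ω | a ∈ t0.q ω} * Inf g a)) / 2 := by
      rw [← Finset.sum_add_distrib, Finset.sum_div]
      have h3 : Inf g e = ∑ a, (if a = e then 1 else 0) * Inf g a := by simp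
      rw [h3, ← Finset.sum_add_distrib]
      refine Finset.sum_congr rfl fun a _ => ?_
      rw [Pr_q_node e t0 t1 hWF a]; ring
    have k1 := s1 t1
    have k0 := s1 t0
    rw [d1, d2, s2]
    have e1 := abs_le.1 (i1.trans (div_le_div_of_nonneg_right k1 (by norm_num)))
    have e0 := abs_le.1 (i0.trans (div_le_div_of_nonneg_right k0 (by norm_num)))
    have c1 := abs_le.1 b1
    have c0 := abs_le.1 b0
    rw [abs_le]
    constructor <;> nlinarith [e1.1, e1.2, e0.1, e0.2, c1.1, c1.2, c0.1, c0.2]

/-! ### O'Donnell-Servedio -/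

/-- the sign of the state of `e` -/
def chi (e : α) (ω : Finset α) : ℝ := if e ∈ ω then 1 else -1

/-- sum of the signs of the queried elements -/
def DT.sgn (T : DT α) (ω : Finset α) : ℝ := ∑ e ∈ T.q ω, chi e ω

theorem chi_insert_of_ne {a e : α} (h : a ≠ e) (ω : Finset α) : chi a (insert e ω) = chi a ω := by
  simp [chi, h]

theorem chi_erase_of_ne {a e : α} (h : a ≠ e) (ω : Finset α) : chi a (ω.erase e) = chi a ω := by
  simp [chi, h]

theorem sgn_node_insert (e : α) (t0 t1 : DT α) {A : Finset α} (h : DT.WF (.node e t0 t1) A)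
    (ω : Finset α) : (DT.node e t0 t1).sgn (insert e ω) = 1 + t1.sgn ω := by
  obtain ⟨-, h0, h1⟩ := h
  have he : e ∈ insert e A := mem_insert_self e A
  unfold DT.sgn
  simp only [DT.q, mem_insert_self, if_true]
  rw [DT.q_insert h1 he, Finset.sum_insert (DT.notMem_q h1 ω e he)]
  congr 1
  · simp [chi]
  · refine Finset.sum_congr rfl fun a ha => chi_insert_of_ne ?_ ω
    rintro rfl
    exact DT.notMem_q h1 ω a he ha

theorem sgn_node_erase (e : α) (t0 t1 : DT α) {A : Finset α} (h : DT.WF (.node e t0 t1) A)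
    (ω : Finset α) : (DT.node e t0 t1).sgn (ω.erase e) = -1 + t0.sgn ω := by
  obtain ⟨-, h0, h1⟩ := h
  have he : e ∈ insert e A := mem_insert_self e A
  unfold DT.sgn
  simp only [DT.q, notMem_erase, if_false]
  rw [DT.q_erase h0 he, Finset.sum_insert (DT.notMem_q h0 ω e he)]
  congr 1
  · simp [chi]
  · refine Finset.sum_congr rfl fun a ha => chi_erase_of_ne ?_ ω
    rintro rfl
    exact DT.notMem_q h0 ω a he ha

theorem card_q_node_insert (e : α) (t0 t1 : DT α) {A : Finset α} (h : DT.WF (.node e t0 t1) A)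
    (ω : Finset α) : (((DT.node e t0 t1).q (insert e ω)).card : ℝ) = 1 + (t1.q ω).card := by
  obtain ⟨-, h0, h1⟩ := h
  have he : e ∈ insert e A := mem_insert_self e A
  simp only [DT.q, mem_insert_self, if_true]
  rw [DT.q_insert h1 he, Finset.card_insert_of_notMem (DT.notMem_q h1 ω e he)]
  push_cast; ring

theorem card_q_node_erase (e : α) (t0 t1 : DT α) {A : Finset α} (h : DT.WF (.node e t0 t1) A)
    (ω : Finset α) : (((DT.node e t0 t1).q (ω.erase e)).card : ℝ) = 1 + (t0.q ω).card := by
  obtain ⟨-, h0, h1⟩ := h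
  have he : e ∈ insert e A := mem_insert_self e A
  simp only [DT.q, notMem_erase, if_false]
  rw [DT.q_erase h0 he, Finset.card_insert_of_notMem (DT.notMem_q h0 ω e he)]
  push_cast; ring

theorem Ex_sgn (T : DT α) : ∀ A : Finset α, T.WF A → Ex T.sgn = 0 ∧
    Ex (fun ω => T.sgn ω ^ 2) = Ex (fun ω => ((T.q ω).card : ℝ)) := by
  induction T with
  | leaf =>
    intro A _
    constructor
    · rw [Ex_congr (g := fun _ => (0 : ℝ)) fun ω => by simp [DT.sgn, DT.q], Ex_const]
    · exact Ex_congr fun ω => by simp [DT.sgn, DT.q]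
  | node e t0 t1 ih0 ih1 =>
    intro A hWF
    obtain ⟨heA, h0, h1⟩ := id hWF
    obtain ⟨a1, b1⟩ := ih1 _ h1
    obtain ⟨a0, b0⟩ := ih0 _ h0
    constructor
    · rw [Ex_split e, Ex_congr (sgn_node_insert e t0 t1 hWF), Ex_congr (sgn_node_erase e t0 t1 hWF),
        Ex_add, Ex_add, Ex_const, Ex_const]
      have := a1; have := a0
      change (1 + Ex t1.sgn + (-1 + Ex t0.sgn)) / 2 = 0
      rw [a1, a0]; norm_num
    · rw [Ex_split e, Ex_split e (fun ω => (((DT.node e t0 t1).q ω).card : ℝ)),
        Ex_congr (card_q_node_insert e t0 t1 hWF), Ex_congr (card_q_node_erase e t0 t1 hWF),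
        Ex_add, Ex_add, Ex_const]
      have e1 : Ex (fun ω => (DT.node e t0 t1).sgn (insert e ω) ^ 2)
          = 1 + Ex (fun ω => ((t1.q ω).card : ℝ)) := by
        rw [← b1, Ex_congr (g := fun ω => (1 : ℝ) + (2 * t1.sgn ω + t1.sgn ω ^ 2)) fun ω => by
          rw [sgn_node_insert e t0 t1 hWF]; ring, Ex_add, Ex_add, Ex_const, Ex_mul_left]
        change (1 : ℝ) + (2 * Ex t1.sgn + _) = _
        rw [a1]; ring
      have e0 : Ex (fun ω => (DT.node e t0 t1).sgn (ω.erase e) ^ 2)
          = 1 + Ex (fun ω => ((t0.q ω).card : ℝ)) := by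
        rw [← b0, Ex_congr (g := fun ω => (1 : ℝ) + (-2 * t0.sgn ω + t0.sgn ω ^ 2)) fun ω => by
          rw [sgn_node_erase e t0 t1 hWF]; ring, Ex_add, Ex_add, Ex_const, Ex_mul_left]
        change (1 : ℝ) + (-2 * Ex t0.sgn + _) = _
        rw [a0]; ring
      rw [e1, e0]

theorem Ex_mul_chi_of_notMem (T : DT α) (f : Finset α → ℝ) (hT : T.Computes f) (e : α) :
    Ex (fun ω => f ω * (if e ∈ T.q ω then 0 else chi e ω)) = 0 := by
  have h : ∀ ω, f (flipE e ω) * (if e ∈ T.q (flipE e ω) then 0 else chi e (flipE e ω))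
      = - (f ω * (if e ∈ T.q ω then 0 else chi e ω)) := by
    intro ω
    by_cases he : e ∈ T.q ω
    · have he' : e ∈ T.q (flipE e ω) := by
        by_contra hc
        have h2 : T.q (flipE e (flipE e ω)) = T.q (flipE e ω) := by
          refine DT.q_congr T fun a ha => ?_
          have hae : a ≠ e := fun h3 => hc (h3 ▸ ha)
          rw [mem_flipE (ω := flipE e ω)]; simp [hae]
        have h3 : flipE e (flipE e ω) = ω := (flipE e).left_inv ω
        rw [h3] at h2
        rw [h2] at he
        exact hc he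
      rw [if_pos he, if_pos he']; simp
    · have h1 : ∀ a ∈ T.q ω, a ∈ ω ↔ a ∈ flipE e ω := by
        intro a ha
        have hae : a ≠ e := fun h3 => he (h3 ▸ ha)
        rw [mem_flipE]; simp [hae]
      rw [DT.q_congr T h1, if_neg he, if_neg he, ← hT ω _ h1]
      have : chi e (flipE e ω) = - chi e ω := by
        unfold chi
        by_cases h3 : e ∈ ω
        · have : e ∉ flipE e ω := by rw [mem_flipE]; simp [h3]
          rw [if_pos h3, if_neg this]
        · have : e ∈ flipE e ω := by rw [mem_flipE]; simp [h3]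
          rw [if_neg h3, if_pos this]; ring
      rw [this]; ring
  have h2 := Ex_equiv (flipE e) (fun ω => f ω * (if e ∈ T.q ω then 0 else chi e ω))
  rw [Ex_congr h] at h2
  have h3 : Ex (fun ω => - (f ω * (if e ∈ T.q ω then 0 else chi e ω)))
      = - Ex (fun ω => f ω * (if e ∈ T.q ω then 0 else chi e ω)) := by
    have := Ex_mul_left (-1) (fun ω : Finset α => f ω * (if e ∈ T.q ω then 0 else chi e ω))
    rw [Ex_congr (g := fun ω => -1 * (f ω * (if e ∈ T.q ω then 0 else chi e ω)))
      (fun ω => by ring), this]; ring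
  rw [h3] at h2
  linarith

theorem sum_Ex_mul_chi_le (T : DT α) {A : Finset α} (hA : T.WF A) (f : Finset α → ℝ)
    (hf : ∀ ω, |f ω| ≤ 1) (hT : T.Computes f) :
    ∑ e, Ex (fun ω => f ω * chi e ω) ≤ Real.sqrt (Ex fun ω => ((T.q ω).card : ℝ)) := by
  have h1 : ∑ e, Ex (fun ω => f ω * chi e ω) = Ex (fun ω => f ω * T.sgn ω) := by
    have h2 : ∀ e, Ex (fun ω => f ω * chi e ω)
        = Ex (fun ω => f ω * (if e ∈ T.q ω then chi e ω else 0)) := by
      intro e
      have h3 := Ex_mul_chi_of_notMem T f hT e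
      have h4 : Ex (fun ω => f ω * chi e ω)
          = Ex (fun ω => f ω * (if e ∈ T.q ω then chi e ω else 0)
            + f ω * (if e ∈ T.q ω then 0 else chi e ω)) := by
        refine Ex_congr fun ω => ?_
        split_ifs <;> ring
      rw [h4, Ex_add, h3, add_zero]
    rw [Finset.sum_congr rfl fun e _ => h2 e, ← Ex_sum]
    refine Ex_congr fun ω => ?_
    rw [← Finset.mul_sum]
    congr 1
    unfold DT.sgn
    rw [← Finset.sum_filter]
    congr 1
    ext e; simp
  rw [h1]
  refine (Ex_mul_le_sqrt _ _).trans ?_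
  rw [(Ex_sgn T A hA).2]
  have h3 : Real.sqrt (Ex fun ω => f ω ^ 2) ≤ 1 := by
    rw [Real.sqrt_le_left (by norm_num), one_pow]
    have h4 : Ex (fun ω => f ω ^ 2) ≤ Ex (fun _ : Finset α => (1 : ℝ)) := by
      refine Ex_mono fun ω => ?_
      have := hf ω
      rw [← sq_abs]
      have h0 := abs_nonneg (f ω)
      nlinarith
    rwa [Ex_const] at h4
  calc _ ≤ 1 * Real.sqrt (Ex fun ω => ((T.q ω).card : ℝ)) :=
        mul_le_mul_of_nonneg_right h3 (Real.sqrt_nonneg _)
    _ = _ := one_mul _

/-- total influence of an increasing function is at most twice the square root of the cost -/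
theorem sum_Inf_le (T : DT α) {A : Finset α} (hA : T.WF A) (f : Finset α → ℝ)
    (hf : ∀ ω, |f ω| ≤ 1) (hT : T.Computes f) (hmono : ∀ s t, s ⊆ t → f s ≤ f t) :
    ∑ e, Inf f e ≤ 2 * Real.sqrt (Ex fun ω => ((T.q ω).card : ℝ)) := by
  have h1 : ∀ e, Inf f e = 2 * Ex (fun ω => f ω * chi e ω) := by
    intro e
    rw [Ex_split e (fun ω => f ω * chi e ω)]
    unfold Inf
    have h2 : ∀ ω : Finset α, |f (insert e ω) - f (ω.erase e)|
        = f (insert e ω) * chi e (insert e ω) + f (ω.erase e) * chi e (ω.erase e) := by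
      intro ω
      have h3 : f (ω.erase e) ≤ f (insert e ω) :=
        hmono _ _ ((erase_subset e ω).trans (subset_insert e ω))
      rw [abs_of_nonneg (by linarith)]
      simp [chi]; ring
    rw [Ex_congr h2, Ex_add]; ring
  rw [Finset.sum_congr rfl fun e _ => h1 e, ← Finset.mul_sum]
  exact mul_le_mul_of_nonneg_left (sum_Ex_mul_chi_le T hA f hf hT) (by norm_num)

/-- The combination used on transitive graphs: if every influence is at most `1/M` times the total
influence, then the cost `Q` of a decision tree for an increasing event `F` satisfies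
`M * P(F) * (1 - P(F)) ≤ Q ^ (3/2)`. -/
theorem cost_bound (T : DT α) (hA : T.WF ∅) (F : Set (Finset α)) (hF : IsUpperSet F)
    (hT : T.Computes (F.indicator fun _ => (1 : ℝ))) {M : ℝ} (hM : 0 < M)
    (hinf : ∀ e, Inf (F.indicator fun _ => (1 : ℝ)) e ≤
      (∑ a, Inf (F.indicator fun _ => (1 : ℝ)) a) / M) :
    M * (Pr F * (1 - Pr F)) ≤ Ex (fun ω => ((T.q ω).card : ℝ))
      * Real.sqrt (Ex fun ω => ((T.q ω).card : ℝ)) := by
  set f : Finset α → ℝ := F.indicator fun _ => (1 : ℝ) with hfdef
  set Q : ℝ := Ex fun ω => ((T.q ω).card : ℝ) with hQ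
  have hQ0 : 0 ≤ Q := Ex_nonneg fun ω => by positivity
  have hf01 : ∀ ω, f ω = 0 ∨ f ω = 1 := by
    intro ω
    by_cases h : ω ∈ F
    · right; exact Set.indicator_of_mem h _
    · left; exact Set.indicator_of_notMem h _
  have hf : ∀ ω, |f ω| ≤ 1 := by
    intro ω
    rcases hf01 ω with h | h <;> rw [h] <;> norm_num
  have hmono : ∀ s t, s ⊆ t → f s ≤ f t := by
    intro s t hst
    by_cases h : s ∈ F
    · rw [hfdef, Set.indicator_of_mem h, Set.indicator_of_mem (hF hst h)]
    · rw [hfdef, Set.indicator_of_notMem h]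
      exact Set.indicator_nonneg (fun _ _ => zero_le_one) _
  have h1 := osss T ∅ hA f f hf hT
  have h2 : Ex (fun ω => f ω * f ω) = Pr F := by
    unfold Pr
    refine Ex_congr fun ω => ?_
    rcases hf01 ω with h | h
    · rw [h, ← hfdef, h]; norm_num
    · rw [h, ← hfdef, h]; norm_num
  have h3 : Ex f = Pr F := rfl
  rw [h2, h3] at h1
  have h4 : Pr F * (1 - Pr F) ≤ (∑ e, Pr {ω | e ∈ T.q ω} * Inf f e) / 2 := by
    have := (le_abs_self _).trans h1
    nlinarith
  have h5 : ∑ e, Pr {ω | e ∈ T.q ω} = Q := by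
    have h6 : ∀ ω : Finset α, ((T.q ω).card : ℝ)
        = ∑ e, Set.indicator {ω | e ∈ T.q ω} (fun _ => (1 : ℝ)) ω := by
      intro ω
      have h7 : ∀ e, Set.indicator {ω | e ∈ T.q ω} (fun _ => (1 : ℝ)) ω
          = if e ∈ T.q ω then 1 else 0 := by
        intro e
        by_cases he : e ∈ T.q ω
        · rw [if_pos he]; exact Set.indicator_of_mem (by simpa using he) _
        · rw [if_neg he]; exact Set.indicator_of_notMem (by simpa using he) _
      rw [Finset.sum_congr rfl fun e _ => h7 e]
      simp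
    rw [hQ, Ex_congr h6, Ex_sum]
    rfl
  have h7 : (∑ e, Pr {ω | e ∈ T.q ω} * Inf f e) ≤ Q * ((∑ a, Inf f a) / M) := by
    rw [← h5, Finset.sum_mul]
    exact Finset.sum_le_sum fun e _ => mul_le_mul_of_nonneg_left (hinf e) (Pr_nonneg _)
  have h8 := sum_Inf_le T hA f hf hT hmono
  have h9 : M * (Pr F * (1 - Pr F)) ≤ M * ((Q * ((∑ a, Inf f a) / M)) / 2) :=
    mul_le_mul_of_nonneg_left (h4.trans (div_le_div_of_nonneg_right h7 (by norm_num))) hM.le
  have h10 : M * ((Q * ((∑ a, Inf f a) / M)) / 2) = Q * (∑ a, Inf f a) / 2 := by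
    field_simp
  rw [h10] at h9
  have h11 : Q * (∑ a, Inf f a) ≤ Q * (2 * Real.sqrt Q) := mul_le_mul_of_nonneg_left h8 hQ0
  linarith

/-! ### Trees from exploration rules -/

/-- If, whatever has been revealed so far, either everything that `R` needs is known or some
unrevealed element certainly belongs to `R`, then a decision tree queries exactly `R`. -/
theorem exists_tree (R : Finset α → Finset α)
    (hR : ∀ K V : Finset α, (∀ ω : Finset α, ω ∩ K = V → R ω ⊆ K) ∨
      ∃ e, e ∉ K ∧ ∀ ω : Finset α, ω ∩ K = V → e ∈ R ω) :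
    ∃ T : DT α, T.WF ∅ ∧ ∀ ω, T.q ω = R ω := by
  have main : ∀ (k : ℕ) (K V : Finset α), Kᶜ.card = k →
      ∃ T : DT α, T.WF K ∧ ∀ ω, ω ∩ K = V → T.q ω = R ω \ K := by
    intro k
    induction k with
    | zero =>
      intro K V hK
      refine ⟨.leaf, trivial, fun ω _ => ?_⟩
      have : K = univ := by
        rw [Finset.card_eq_zero, Finset.compl_eq_empty_iff] at hK; exact hK
      subst this
      rw [DT.q, eq_comm, Finset.sdiff_eq_empty_iff_subset]
      exact subset_univ _
    | succ k ih =>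
      intro K V hK
      rcases hR K V with h | ⟨e, heK, he⟩
      · refine ⟨.leaf, trivial, fun ω hω => ?_⟩
        rw [DT.q, Finset.sdiff_eq_empty_iff_subset.2 (h ω hω)]
      · have hcard : (insert e K)ᶜ.card = k := by
          rw [Finset.card_compl, Finset.card_insert_of_notMem heK]
          rw [Finset.card_compl] at hK
          omega
        obtain ⟨T1, hW1, hT1⟩ := ih (insert e K) (insert e V) hcard
        obtain ⟨T0, hW0, hT0⟩ := ih (insert e K) V hcard
        refine ⟨.node e T0 T1, ⟨heK, hW0, hW1⟩, fun ω hω => ?_⟩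
        have heR := he ω hω
        simp only [DT.q]
        have key : insert e (R ω \ insert e K) = R ω \ K := by
          ext a
          simp only [mem_insert, mem_sdiff, not_or]
          constructor
          · rintro (rfl | ⟨h1, -, h3⟩)
            · exact ⟨heR, heK⟩
            · exact ⟨h1, h3⟩
          · rintro ⟨h1, h2⟩
            by_cases hae : a = e
            · exact Or.inl hae
            · exact Or.inr ⟨h1, hae, h2⟩
        by_cases h : e ∈ ω
        · rw [if_pos h, hT1 ω ?_, key]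
          rw [← hω]
          ext a
          simp only [mem_inter, mem_insert]
          constructor
          · rintro ⟨h1, rfl | h2⟩
            · exact Or.inl rfl
            · exact Or.inr ⟨h1, h2⟩
          · rintro (rfl | ⟨h1, h2⟩)
            · exact ⟨h, Or.inl rfl⟩
            · exact ⟨h1, Or.inr h2⟩
        · rw [if_neg h, hT0 ω ?_, key]
          rw [← hω]
          ext a
          simp only [mem_inter, mem_insert]
          constructor
          · rintro ⟨h1, rfl | h2⟩
            · exact absurd h1 h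
            · exact ⟨h1, h2⟩
          · rintro ⟨h1, h2⟩
            exact ⟨h1, Or.inr h2⟩
  obtain ⟨T, hW, hT⟩ := main _ ∅ ∅ rfl
  exact ⟨T, hW, fun ω => by rw [hT ω (by simp), Finset.sdiff_empty]⟩

end Pool.Agent.MP_6bd702
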